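import Mathlib
import Pool.Agent.H24.Pieces

set_option autoImplicit false

namespace Pool.Agent.Results.MP_d4551b_al.Differ

open FreeMonoid

/-- The congruence defining the special inverse monoid with the single relator `w`. -/
def con {X : Type} (w : List (X × Bool)) : Con (FreeMonoid (X × Bool)) := conGen fun a b =>
  (∃ u, a = ofList (u ++ FreeGroup.invRev u ++ u) ∧ b = ofList u) ∨
  (∃ u v, a = ofList (u ++ FreeGroup.invRev u ++ (v ++ FreeGroup.invRev v)) ∧
    b = ofList (v ++ FreeGroup.invRev v ++ (u ++ FreeGroup.invRev u))) ∨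
  (a = ofList w ∧ b = 1)

/-- The minimal invertible pieces of `w` in the special inverse monoid with relator `w`. -/
def pieces {X : Type} (w : List (X × Bool)) : Set (List (X × Bool)) :=
  {p | ∃ i j, i < j ∧ j ≤ w.length ∧ IsUnit ((con w).mk' (ofList (w.take i))) ∧
    IsUnit ((con w).mk' (ofList (w.take j))) ∧
    (∀ l, i < l → l < j → ¬ IsUnit ((con w).mk' (ofList (w.take l)))) ∧ p = (w.take j).drop i}

theorem con_eq {X : Type} (w : List (X × Bool)) : con w = Pool.Agent.H24.SpInv.ic [w] := by
  unfold con Pool.Agent.H24.SpInv.ic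
  simp only [List.mem_singleton, exists_eq_left]

theorem result : ∃ r : List (Fin 2 × Bool), r ≠ [] ∧ pieces (r ++ r) ≠ pieces r := by
  refine ⟨Pool.Agent.H24.Pieces.r, by decide, fun h => ?_⟩
  have h1 : [Pool.Agent.H24.Pieces.T] ∈ pieces Pool.Agent.H24.Pieces.r :=
    ⟨0, 1, by omega, by decide, isUnit_one, by rw [con_eq]; exact Pool.Agent.H24.Pieces.unit1,
      fun l a b => by omega, rfl⟩
  rw [← h] at h1
  obtain ⟨i, j, a, b, c, d, _, e⟩ := h1
  rw [con_eq] at c d
  rw [← List.take_append_drop i (List.take j _), ← e, List.take_take, min_eq_left a.le, ofList_append,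
    map_mul, c.mul_left_iff] at d
  exact Pool.Agent.H24.Pieces.nonunit2 d

end Pool.Agent.Results.MP_d4551b_al.Differ
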